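import Pool.Agent.R223.RX.Many
import Pool.Agent.Y282.RB.K3

/-!
# The Pochhammer bound on all angular frequencies `k ≠ 2 n`

For every `p ≥ 2`, every `n ≥ 1` and every integer `k ≠ 2 n` the inequality of the question holds
for the functions `f (r e^{iθ}) = e^{i k θ} φ(r)`, and for sums of `N` such functions (`N` arbitrary
frequencies, none equal to `2 n`) it holds for all `p ≥ 1 + 7 N`, uniformly in `n`.

Outline (files `Pool/Agent/R892/BR/*` for `k ≤ n`, `Pool/Agent/R223/RX/*` for `k > n`).  For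
`k = 2 j + m` with `j, m ≥ 1` the operator `T^j` is, up to unimodular factors and in `t = |z| ^ 2`,
`a ↦ a - ∫_0^∞ kk y a (t (1 + y)) dy` with an explicit Jacobi type kernel; it is a contraction of
`L^2` and, by virial (Sonin type) estimates for the differential equation of the kernel,
`∫ |kk| ≤ 13 / 2 j - 1`, so Riesz-Thorin gives the constant `(13 / 2 j) ^ (1 - 2 / p)`.  For
`n < k < 2 n` the moduli of `T^n f` and `T^(k - n) f` agree.
-/

set_option autoImplicit false

open MeasureTheory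

namespace Pool.Agent.Results.MP_dd244f_an.AllButOneFrequency

/-- The `n`-th power of the Beurling transform: the Fourier multiplier with symbol
`(conj ξ / ξ) ^ n`, in the literal form of the frozen statement. -/
noncomputable def T (n : ℕ) (f : ℂ → ℂ) (z : ℂ) : ℂ :=
  ∫ ξ : ℂ,
    Complex.exp (2 * (Real.pi : ℂ) * Complex.I * (((z.re * ξ.re + z.im * ξ.im : ℝ)) : ℂ)) *
      ((starRingEnd ℂ ξ / ξ) ^ n *
        ∫ x : ℂ, Complex.exp (-(2 * (Real.pi : ℂ) * Complex.I *
          (((x.re * ξ.re + x.im * ξ.im : ℝ)) : ℂ))) * f x)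

/-- The constant `(1/q)_n / (1/p)_n` of the question. -/
noncomputable def K (n : ℕ) (p : ℝ) : ℝ :=
  (ascPochhammer ℝ n).eval (1 - 1 / p) / (ascPochhammer ℝ n).eval (1 / p)

/-- Let `p ≥ 2`, `n ≥ 1`, `S` a finite set of integers (negative ones included) with `2 n ∉ S`, and
for `k ∈ S` let `f k` be a Schwartz function of angular frequency `k`, that is
`f k (a z) = a ^ k f k z` for `|a| = 1` (`f k (r e^{iθ}) = e^{i k θ} φ_k(r)`).  Put
`F = ∑_{k ∈ S} f k` and `N = |S|`.
* For `n ≥ 2`, `‖T^n F‖_p ≤ N (13 n / 2) ^ (1 - 2/p) ‖F‖_p`.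
* The inequality of the question, `‖T^n F‖_p ≤ (1/q)_n / (1/p)_n ‖F‖_p`, holds when `N ≤ 1` (one
  frequency `k ≠ 2 n`, every `p ≥ 2`), and when `p ≥ 1 + 7 N`. -/
theorem result (p : ℝ) (hp : 2 ≤ p) (n : ℕ) (hn : 1 ≤ n) (S : Finset ℤ) (hS : (2 * n : ℤ) ∉ S)
    (f : ℤ → SchwartzMap ℂ ℂ)
    (hf : ∀ k ∈ S, ∀ a z : ℂ, ‖a‖ = 1 → f k (a * z) = a ^ k * f k z) :
    (2 ≤ n → eLpNorm (T n fun z => ∑ k ∈ S, f k z) (ENNReal.ofReal p) (volume : Measure ℂ)
        ≤ ENNReal.ofReal (S.card * (13 / 2 * (n : ℝ)) ^ (1 - 2 / p))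
          * eLpNorm (fun z => ∑ k ∈ S, f k z) (ENNReal.ofReal p) (volume : Measure ℂ)) ∧
    (S.card ≤ 1 ∨ 1 + 7 * (S.card : ℝ) ≤ p →
      eLpNorm (T n fun z => ∑ k ∈ S, f k z) (ENNReal.ofReal p) (volume : Measure ℂ)
        ≤ ENNReal.ofReal (K n p)
          * eLpNorm (fun z => ∑ k ∈ S, f k z) (ENNReal.ofReal p) (volume : Measure ℂ)) := by
  have hK : K n p = Y282.RB.Cn p n := (Y282.RB.K3.main n p (by linarith)).symm
  refine ⟨fun h => R223.RX.Many.many n h p hp S hS f hf, fun h => ?_⟩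
  rw [hK]
  rcases eq_or_lt_of_le hn with h1 | h1
  · subst h1
    exact R223.RY.Ord.one p hp S f
  · refine (R223.RX.Many.many n h1 p hp S hS f hf).trans ?_
    gcongr
    exact R223.RX.Many.cmpC n S.card p hp h h1

end Pool.Agent.Results.MP_dd244f_an.AllButOneFrequency
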