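import Pool.Agent.R227.IT9
import Pool.Agent.Y282.RB.F
import Pool.Agent.Y282.RB.F1
import Pool.Agent.Y282.RB.K2
import Pool.Agent.Y282.RB.K3

/-!
# Powers of the Beurling transform for `2 ≤ p ≤ 4` on the extremal angular class

For every `n ≥ 500` and `2 ≤ p ≤ 4` the norm of `T ^ n` in `L^p` on the functions
`f (r e^{iθ}) = e^{2 n i θ} φ(r)` lies between the constant of the question and `1.06` times it
(`1.015` times it for `p = 4`).
-/

set_option autoImplicit false

open MeasureTheory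

namespace Pool.Agent.Results.MP_dd244f_an.AngularTwoToFourRatio

/-- The `n`-th power of the Beurling transform: the Fourier multiplier with symbol
`(conj ξ / ξ) ^ n`, in the literal form of the frozen statement. -/
noncomputable def T (n : ℕ) (f : ℂ → ℂ) (z : ℂ) : ℂ :=
  ∫ ξ : ℂ,
    Complex.exp (2 * (Real.pi : ℂ) * Complex.I * (((z.re * ξ.re + z.im * ξ.im : ℝ)) : ℂ)) *
      ((starRingEnd ℂ ξ / ξ) ^ n *
        ∫ x : ℂ, Complex.exp (-(2 * (Real.pi : ℂ) * Complex.I *
          (((x.re * ξ.re + x.im * ξ.im : ℝ)) : ℂ))) * f x)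

/-- The constant `(1/q)_n / (1/p)_n` of the question. -/
noncomputable def K (n : ℕ) (p : ℝ) : ℝ :=
  (ascPochhammer ℝ n).eval (1 - 1 / p) / (ascPochhammer ℝ n).eval (1 / p)

/-- Let `2 ≤ p ≤ 4` and let `n ≥ 500` be an integer.  For every Schwartz function `f` with
`f (a z) = a ^ (2 n) f z` for `|a| = 1` (that is, `f (r e^{iθ}) = e^{2 n i θ} φ(r)`), the inequality
of the question holds up to the factor `1.06`, and up to the factor `1.015` for `p = 4`; for these
functions no constant below `(1/q)_n / (1/p)_n` is admissible. -/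
theorem result (n : ℕ) (p : ℝ) (hn : 500 ≤ n) (hp2 : 2 ≤ p) (hp4 : p ≤ 4) :
    (∀ f : SchwartzMap ℂ ℂ, (∀ a z : ℂ, ‖a‖ = 1 → f (a * z) = a ^ (2 * n) * f z) →
      eLpNorm (T n f) (ENNReal.ofReal p) (volume : Measure ℂ)
          ≤ ENNReal.ofReal (1.06 * K n p) * eLpNorm f (ENNReal.ofReal p) (volume : Measure ℂ) ∧
      (p = 4 → eLpNorm (T n f) (ENNReal.ofReal p) (volume : Measure ℂ)
          ≤ ENNReal.ofReal (1.015 * K n p) * eLpNorm f (ENNReal.ofReal p) (volume : Measure ℂ))) ∧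
    (∀ c : ℝ, c < K n p →
      ∃ f : SchwartzMap ℂ ℂ, HasCompactSupport f ∧
        (∀ a z : ℂ, ‖a‖ = 1 → f (a * z) = a ^ (2 * n) * f z) ∧
        ENNReal.ofReal c * eLpNorm f (ENNReal.ofReal p) (volume : Measure ℂ)
          < eLpNorm (T n f) (ENNReal.ofReal p) (volume : Measure ℂ)) := by
  have hT : ∀ n f, T n f = Y282.RB.Tn n f := fun n f => rfl
  have hK : K n p = Y282.RB.Cn p n := (Y282.RB.K3.main n p (by linarith)).symm
  have hpos : 0 < Y282.RB.Cn p n := R227.IT.Cn_pos hp2 n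
  refine ⟨fun f hf => ⟨?_, ?_⟩, ?_⟩
  · refine (R227.IT.schw_nine hn hp2 hp4 f hf).trans ?_
    have h1 := R227.IT.N3 hp2 (n := n) (by omega)
    rw [hK]
    gcongr
  · rintro rfl
    refine (R227.IT.schw_of (by omega) (by norm_num) (by positivity) (R227.BT.oneD hn) f hf).trans ?_
    have h1 := R227.BT.three_le (n := n) (by omega)
    have h2 : 3 * Real.sqrt n ≤ 1.015 * K n 4 := by
      rw [hK]
      norm_num at h1 ⊢
      linarith
    gcongr
  · intro c hc
    rw [hK] at hc
    obtain ⟨g, hg, hs, hlt⟩ := Y282.RB.F.main Y282.RB.A2.main Y282.RB.A3.main Y282.RB.F1.main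
      n p (max c 0) (by omega) (by linarith) (le_max_right _ _) (max_lt hc hpos)
    obtain ⟨f, hf1, hf2, hf3⟩ := Y282.RB.K2.main n g hg hs
    refine ⟨f, hf3, hf2, ?_⟩
    rw [hT, hf1]
    refine lt_of_le_of_lt ?_ hlt
    gcongr
    exact le_max_left _ _

end Pool.Agent.Results.MP_dd244f_an.AngularTwoToFourRatio
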