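import Pool.Agent.R223.RW.Fin
import Pool.Agent.Y282.RB.K2
import Pool.Agent.Y282.RB.K3

/-!
# The exact norm on the functions of one angular frequency, for `p ≥ 1000 n ^ 2`

For every `n ≥ 1` and every `p ≥ 1000 n ^ 2` the norm of `T ^ n` in `L^p` on the functions
`f (r e^{iθ}) = e^{i k θ} φ(r)` of one angular frequency, all integers `k` admitted, is exactly the
constant `(1/q)_n / (1/p)_n` of the question.

The extremal frequency `k = 2 n`: there `T ^ n` is a chain of `n` first order operators, and the
inequality follows from a pointwise inequality `Star n p` for a quadratic form (starting files,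
where it is proved for `p ≥ 4000 n ^ 5`).  Here it is proved for `p ≥ 1000 n ^ 2` (this is the right
order for the sufficient condition in use), by a logarithmic bound of the defect and by a backward
recursion with sharp weights.  The frequencies `k ≠ 2 n` are in `AllButOneFrequency`.
-/

set_option autoImplicit false

open MeasureTheory

namespace Pool.Agent.Results.MP_dd244f_an.EveryFrequencyLargeP

/-- The `n`-th power of the Beurling transform: the Fourier multiplier with symbol
`(conj ξ / ξ) ^ n`, in the literal form of the frozen statement. -/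
noncomputable def T (n : ℕ) (f : ℂ → ℂ) (z : ℂ) : ℂ :=
  ∫ ξ : ℂ,
    Complex.exp (2 * (Real.pi : ℂ) * Complex.I * (((z.re * ξ.re + z.im * ξ.im : ℝ)) : ℂ)) *
      ((starRingEnd ℂ ξ / ξ) ^ n *
        ∫ x : ℂ, Complex.exp (-(2 * (Real.pi : ℂ) * Complex.I *
          (((x.re * ξ.re + x.im * ξ.im : ℝ)) : ℂ))) * f x)

/-- The constant `(1/q)_n / (1/p)_n` of the question. -/
noncomputable def K (n : ℕ) (p : ℝ) : ℝ :=
  (ascPochhammer ℝ n).eval (1 - 1 / p) / (ascPochhammer ℝ n).eval (1 / p)

/-- The set of admissible constants for `T ^ n` in `L^p` on the Schwartz functions of one angular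
frequency `k`, where `k` may be any integer. -/
def Admissible (n : ℕ) (p : ℝ) : Set ℝ :=
  {C | 0 ≤ C ∧ ∀ (k : ℤ) (f : SchwartzMap ℂ ℂ),
    (∀ a z : ℂ, ‖a‖ = 1 → f (a * z) = a ^ k * f z) →
    eLpNorm (T n f) (ENNReal.ofReal p) (volume : Measure ℂ)
      ≤ ENNReal.ofReal C * eLpNorm f (ENNReal.ofReal p) (volume : Measure ℂ)}

/-- For every `n ≥ 1` and every real `p ≥ 1000 n ^ 2` the least admissible constant for `T ^ n` in
`L^p` on the Schwartz functions of one angular frequency (`f (r e^{iθ}) = e^{i k θ} φ(r)`, `k` any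
integer) is the constant `(1/q)_n / (1/p)_n` of the question. -/
theorem result (n : ℕ) (p : ℝ) (hn : 1 ≤ n) (hp : 1000 * (n : ℝ) ^ 2 ≤ p) :
    IsLeast (Admissible n p) (K n p) := by
  have hp2 : 2 ≤ p := R223.RW.Fin.p2 n p hn hp
  have hT : ∀ n f, T n f = Y282.RB.Tn n f := fun n f => rfl
  have hK : K n p = Y282.RB.Cn p n := (Y282.RB.K3.main n p (by linarith)).symm
  have hpos : 0 < Y282.RB.Cn p n := R223.RW.Fin.cpos n p hp2
  refine ⟨⟨hK ▸ hpos.le, fun k f hf => ?_⟩, ?_⟩
  · rw [hK]
    exact R223.RW.Fin.all n p hn hp k f hf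
  · rintro C ⟨hC0, hCf⟩
    by_contra hlt
    rw [not_le, hK] at hlt
    obtain ⟨g, hg, hs, hlt'⟩ := R223.RW.Fin.sharp n p C hn (by linarith) hC0 hlt
    obtain ⟨f, hf1, hf2, _⟩ := Y282.RB.K2.main n g hg hs
    have h5 := hCf (2 * n) f (fun a z ha => by
      rw [hf2 a z ha]
      norm_cast)
    rw [hT, hf1] at h5
    exact absurd h5 (not_le.2 hlt')

end Pool.Agent.Results.MP_dd244f_an.EveryFrequencyLargeP
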