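import Pool.Agent.R223.RY.Fin
import Pool.Agent.Y282.RB.K3

/-!
# Powers of the Beurling transform on functions with many angular frequencies

Let `F = ∑_{k ∈ S} f_k` with `f_k` of angular frequency `k` and `S ⊆ [l, n]` finite.  Then
`‖T^n F‖_p ≤ (√|S| (1 + min (√(n (n - l))) (4 (n (n - l)) ^ (1/4)))) ^ (1 - 2/p) ‖F‖_p`.  When the
base of the power is at most `6.8 (n + 1/12)`, this is at most `(1/q)_n / (1/p)_n ‖F‖_p`; this covers
all functions with frequencies in `{0, ..., n}`.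

Outline (files `Pool/Agent/R223/RD/*`, `Pool/Agent/R223/RY/*`).  On the type `k ≤ n` the operator is,
in `t = |z| ^ 2`, `a ↦ a - ∫_0^1 KC x a (t (1 - x)) dx` with an explicit Jacobi type kernel,
`∫_0^1 KC^2 x^(3/4) ≤ 4 √(n (n - k))` (virial estimates for its differential equation).  So the
square function is bounded on `L^∞` by Cauchy-Schwarz with a weight that does not depend on `k`, and
isometric on `L^2`; vector valued Riesz-Thorin, and `‖S F‖_p ≤ ‖F‖_p`,
`‖G‖_p ≤ |S|^(1/2 - 1/p) ‖S G‖_p`.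
-/

set_option autoImplicit false

open MeasureTheory

namespace Pool.Agent.Results.MP_dd244f_an.FrequencyBands

/-- The `n`-th power of the Beurling transform: the Fourier multiplier with symbol
`(conj ξ / ξ) ^ n`, in the literal form of the frozen statement. -/
noncomputable def T (n : ℕ) (f : ℂ → ℂ) (z : ℂ) : ℂ :=
  ∫ ξ : ℂ,
    Complex.exp (2 * (Real.pi : ℂ) * Complex.I * (((z.re * ξ.re + z.im * ξ.im : ℝ)) : ℂ)) *
      ((starRingEnd ℂ ξ / ξ) ^ n *
        ∫ x : ℂ, Complex.exp (-(2 * (Real.pi : ℂ) * Complex.I *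
          (((x.re * ξ.re + x.im * ξ.im : ℝ)) : ℂ))) * f x)

/-- The constant `(1/q)_n / (1/p)_n` of the question. -/
noncomputable def K (n : ℕ) (p : ℝ) : ℝ :=
  (ascPochhammer ℝ n).eval (1 - 1 / p) / (ascPochhammer ℝ n).eval (1 / p)

/-- Let `p ≥ 2`, `n ≥ 1`, `l ≤ n` an integer, `S` a finite set of integers in `[l, n]`, and for
`k ∈ S` let `f k` be a Schwartz function of angular frequency `k`, that is
`f k (a z) = a ^ k f k z` for `|a| = 1`.  For `F = ∑_{k ∈ S} f k`: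
* `‖T^n F‖_p ≤ (√|S| (1 + min (√(n (n - l))) (4 (n (n - l)) ^ (1/4)))) ^ (1 - 2/p) ‖F‖_p`;
* if `n ≥ 2` and `√|S| (1 + min ...) ≤ (34/5) (n + 1/12)`, the inequality of the question holds
  for `F`;
* in particular it holds for all `n ≥ 1` when all frequencies of `F` are in `{0, 1, ..., n}`. -/
theorem result (p : ℝ) (hp : 2 ≤ p) (n : ℕ) (hn : 1 ≤ n) (l : ℤ) (hl : l ≤ n) (S : Finset ℤ)
    (hS : ∀ k ∈ S, l ≤ k ∧ k ≤ n) (f : ℤ → SchwartzMap ℂ ℂ)
    (hf : ∀ k ∈ S, ∀ a z : ℂ, ‖a‖ = 1 → f k (a * z) = a ^ k * f k z) :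
    eLpNorm (T n fun z => ∑ k ∈ S, f k z) (ENNReal.ofReal p) (volume : Measure ℂ)
        ≤ ENNReal.ofReal ((√(S.card : ℝ) * (1 + min (√((n : ℝ) * (n - l)))
            (4 * √√((n : ℝ) * (n - l))))) ^ (1 - 2 / p))
          * eLpNorm (fun z => ∑ k ∈ S, f k z) (ENNReal.ofReal p) (volume : Measure ℂ) ∧
    (2 ≤ n → √(S.card : ℝ) * (1 + min (√((n : ℝ) * (n - l))) (4 * √√((n : ℝ) * (n - l))))
          ≤ 34 / 5 * ((n : ℝ) + 1 / 12) →
      eLpNorm (T n fun z => ∑ k ∈ S, f k z) (ENNReal.ofReal p) (volume : Measure ℂ)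
        ≤ ENNReal.ofReal (K n p)
          * eLpNorm (fun z => ∑ k ∈ S, f k z) (ENNReal.ofReal p) (volume : Measure ℂ)) ∧
    (0 ≤ l →
      eLpNorm (T n fun z => ∑ k ∈ S, f k z) (ENNReal.ofReal p) (volume : Measure ℂ)
        ≤ ENNReal.ofReal (K n p)
          * eLpNorm (fun z => ∑ k ∈ S, f k z) (ENNReal.ofReal p) (volume : Measure ℂ)) := by
  have hK : K n p = Y282.RB.Cn p n := (Y282.RB.K3.main n p (by linarith)).symm
  have h0 := R223.RY.Fin.band n l p f hl hp S hS hf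
  refine ⟨h0, fun hn2 hle => ?_, fun hl0 => ?_⟩
  · rw [hK]
    refine h0.trans ?_
    gcongr
    exact R223.RY.Ord.le_C _ n hn2 p hp (R223.RY.Ord.cS_nonneg n l S.card) hle
  · rw [hK]
    rcases eq_or_lt_of_le hn with h1 | h1
    · subst h1
      exact R223.RY.Ord.one p hp S f
    · have hS0 : ∀ k ∈ S, (0 : ℤ) ≤ k ∧ k ≤ n := fun k hk => ⟨hl0.trans (hS k hk).1, (hS k hk).2⟩
      have hc : S.card ≤ n + 1 := by
        have h2 : S ⊆ Finset.Icc (0 : ℤ) n := fun k hk => Finset.mem_Icc.2 (hS0 k hk)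
        have h3 := Finset.card_le_card h2
        rw [Int.card_Icc] at h3
        omega
      refine (R223.RY.Fin.band n 0 p f (by omega) hp S hS0 hf).trans ?_
      gcongr
      exact R223.RY.Ord.le_C _ n h1 p hp (R223.RY.Ord.cS_nonneg n 0 S.card)
        (R223.RY.Ord.cS_zero n h1 S.card hc)

end Pool.Agent.Results.MP_dd244f_an.FrequencyBands
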